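import Pool.Agent.Helper79.GS.St4

/-! # Project GS, module SPM: polynomial bounds -/

set_option autoImplicit false

namespace Pool.Agent.Helper30.GS

open Pool.Agent.Helper79.GS Pool.Agent.Helper73.DC

private lemma bd (c n : ℕ) :
    ((n + 2) ^ c + 1) * Nat.log 2 (n + 2) ≤ 3 ^ (c + 2) * n ^ (c + 2) + 2 ^ (c + 2) := by
  have h1 : Nat.log 2 (n + 2) ≤ n + 1 := by
    have := Nat.log_lt_self 2 (x := n + 2) (by omega)
    omega
  have h2 : ((n + 2) ^ c + 1) * (n + 1) ≤ (n + 2) ^ (c + 2) := by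
    have h3 : 1 ≤ (n + 2) ^ c := Nat.one_le_pow _ _ (by omega)
    have h4 : (n + 2) ^ (c + 2) = (n + 2) ^ c * ((n + 2) * (n + 2)) := by ring
    rw [h4]
    nlinarith [Nat.zero_le n, Nat.zero_le ((n + 2) ^ c), Nat.mul_le_mul_right (n * n) h3,
      Nat.mul_le_mul_right n h3]
  have h5 : (n + 2) ^ (c + 2) ≤ 3 ^ (c + 2) * n ^ (c + 2) + 2 ^ (c + 2) := by
    rcases Nat.eq_zero_or_pos n with rfl | hn
    · simp
    · calc (n + 2) ^ (c + 2) ≤ (3 * n) ^ (c + 2) := Nat.pow_le_pow_left (by omega) _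
        _ = 3 ^ (c + 2) * n ^ (c + 2) := by rw [mul_pow]
        _ ≤ _ := Nat.le_add_right _ _
  exact (Nat.mul_le_mul_left _ h1).trans (h2.trans h5)

theorem hSPM : StSPM := by
  rintro α c L ⟨M, C, h⟩
  refine ⟨c + 2, M, C * 3 ^ (c + 2) + C * 2 ^ (c + 2) + C, fun w => ⟨(h w).1, fun d hd t => ?_⟩⟩
  refine lt_of_lt_of_le ((h w).2 d hd t) ?_
  show C * (((w.length + 2) ^ c + 1) * Nat.log 2 (w.length + 2)) + C ≤
    (C * 3 ^ (c + 2) + C * 2 ^ (c + 2) + C) * w.length ^ (c + 2) +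
      (C * 3 ^ (c + 2) + C * 2 ^ (c + 2) + C)
  have h1 := Nat.mul_le_mul_left C (bd c w.length)
  have h2 : C * (3 ^ (c + 2) * w.length ^ (c + 2) + 2 ^ (c + 2)) + C ≤
      (C * 3 ^ (c + 2) + C * 2 ^ (c + 2) + C) * w.length ^ (c + 2) +
      (C * 3 ^ (c + 2) + C * 2 ^ (c + 2) + C) := by
    have h3 : (C * 3 ^ (c + 2) + C * 2 ^ (c + 2) + C) * w.length ^ (c + 2) =
        C * (3 ^ (c + 2) * w.length ^ (c + 2)) + (C * 2 ^ (c + 2) + C) * w.length ^ (c + 2) := by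
      ring
    rw [h3, Nat.mul_add]
    have h4 := Nat.zero_le ((C * 2 ^ (c + 2) + C) * w.length ^ (c + 2))
    have h5 := Nat.zero_le (C * 3 ^ (c + 2))
    omega
  omega

end Pool.Agent.Helper30.GS
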